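import Pool.Agent.Helper4.AE.St

/-!
# AE MODULE MOB: Moebius inversion
-/

set_option autoImplicit false

namespace Pool.Agent.Helper2.AE

open Pool.Agent.Helper4.AE
open Finset
open scoped ArithmeticFunction.Moebius

/-- sum of the Moebius function over the divisors -/
theorem sum_moebius (g : ℕ) :
    (∑ e ∈ g.divisors, (ArithmeticFunction.moebius e : ℤ)) = if g = 1 then 1 else 0 := by
  have h := ArithmeticFunction.coe_mul_zeta_apply (f := ArithmeticFunction.moebius) (x := g)
  rw [← h, ArithmeticFunction.moebius_mul_coe_zeta, ArithmeticFunction.one_apply]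

/-- sum over the divisors of n which divide w -/
theorem sum_moebius_dvd (n : ℕ) (hn : 1 ≤ n) (w : ℤ) :
    (∑ e ∈ n.divisors, (if (e : ℤ) ∣ w then (ArithmeticFunction.moebius e : ℤ) else 0)) =
      if Nat.Coprime w.natAbs n then 1 else 0 := by
  rw [← sum_filter]
  have he : n.divisors.filter (fun e : ℕ => (e : ℤ) ∣ w) = (Nat.gcd w.natAbs n).divisors := by
    ext e
    rw [mem_filter, Nat.mem_divisors, Nat.mem_divisors]
    constructor
    · rintro ⟨⟨h1, h2⟩, h3⟩
      refine ⟨Nat.dvd_gcd ?_ h1, ?_⟩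
      · exact Int.natCast_dvd.mp h3
      · exact (Nat.gcd_pos_of_pos_right _ (by omega)).ne'
    · rintro ⟨h1, _⟩
      refine ⟨⟨h1.trans (Nat.gcd_dvd_right _ _), by omega⟩, ?_⟩
      exact Int.natCast_dvd.mpr (h1.trans (Nat.gcd_dvd_left _ _))
  rw [he, sum_moebius]

/-- phi(n)/n as a Moebius sum -/
theorem sum_moebius_div (n : ℕ) (hn : 1 ≤ n) :
    (∑ e ∈ n.divisors, (ArithmeticFunction.moebius e : ℝ) / e) = (Nat.totient n : ℝ) / n := by
  have h := (ArithmeticFunction.sum_eq_iff_sum_mul_moebius_eq (R := ℝ)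
    (f := fun k => (Nat.totient k : ℝ)) (g := fun k => (k : ℝ))).mp (by
      intro k _
      have := Nat.sum_totient k
      exact_mod_cast this) n (by omega)
  have hn0 : (n : ℝ) ≠ 0 := by positivity
  rw [← h, Nat.sum_divisorsAntidiagonal (f := fun a b => (ArithmeticFunction.moebius a : ℝ) * (b : ℝ)),
    sum_div]
  apply sum_congr rfl
  intro e he
  have hed := Nat.dvd_of_mem_divisors he
  have he0 : (e : ℝ) ≠ 0 := by
    have := Nat.pos_of_mem_divisors he
    positivity
  rw [Nat.cast_div hed he0]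
  field_simp

/-- the pairs counted by one residue -/
theorem point (m n q : ℕ) (hn : 1 ≤ n) (hq : 1 ≤ q) (hm : n * q = m) (z : ℤ) :
    ((((range n).filter (fun j => Nat.Coprime j n)).filter
      (fun j => (z : ZMod m) = ((q * j : ℕ) : ZMod m))).card : ℤ) ≤
      ∑ e ∈ n.divisors, (if (((q * e : ℕ)) : ℤ) ∣ z then (ArithmeticFunction.moebius e : ℤ) else 0) := by
  have hkey : ∀ j : ℕ, (z : ZMod m) = ((q * j : ℕ) : ZMod m) → ∃ w : ℤ, z = q * w ∧
      (n : ℤ) ∣ w - j := by
    intro j hj
    have h1 : ((z - (q * j : ℕ) : ℤ) : ZMod m) = 0 := by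
      push_cast
      rw [hj]
      push_cast
      ring
    have h2 := (ZMod.intCast_zmod_eq_zero_iff_dvd _ m).mp h1
    rw [← hm] at h2
    obtain ⟨t, ht⟩ := h2
    push_cast at ht
    refine ⟨j + n * t, ?_, ⟨t, by ring⟩⟩
    linear_combination ht
  by_cases hz : (q : ℤ) ∣ z
  · obtain ⟨w, hw⟩ := hz
    have hq0 : (q : ℤ) ≠ 0 := by positivity
    have hR : (∑ e ∈ n.divisors,
        (if (((q * e : ℕ)) : ℤ) ∣ z then (ArithmeticFunction.moebius e : ℤ) else 0)) =
        if Nat.Coprime w.natAbs n then 1 else 0 := by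
      rw [← sum_moebius_dvd n hn w]
      apply sum_congr rfl
      intro e _
      have : (((q * e : ℕ)) : ℤ) ∣ z ↔ (e : ℤ) ∣ w := by
        rw [hw]
        push_cast
        exact mul_dvd_mul_iff_left hq0
      simp only [this]
    rw [hR]
    have hj : ∀ j ∈ (((range n).filter (fun j => Nat.Coprime j n)).filter
      (fun j => (z : ZMod m) = ((q * j : ℕ) : ZMod m))), j < n ∧ Nat.Coprime j n ∧
        (n : ℤ) ∣ w - j := by
      intro j hj
      rw [mem_filter, mem_filter, mem_range] at hj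
      refine ⟨hj.1.1, hj.1.2, ?_⟩
      obtain ⟨w', hw', hd⟩ := hkey j hj.2
      have : w' = w := by
        have : (q : ℤ) * w' = q * w := by rw [← hw', ← hw]
        exact mul_left_cancel₀ hq0 this
      rw [← this]
      exact hd
    have hcard : (((range n).filter (fun j => Nat.Coprime j n)).filter
      (fun j => (z : ZMod m) = ((q * j : ℕ) : ZMod m))).card ≤ 1 := by
      rw [card_le_one]
      intro a ha b hb
      obtain ⟨ha1, _, ha3⟩ := hj a ha
      obtain ⟨hb1, _, hb3⟩ := hj b hb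
      have hd : (n : ℤ) ∣ (a : ℤ) - b := by
        have := dvd_sub hb3 ha3
        have he : w - b - (w - a) = (a : ℤ) - b := by ring
        rwa [he] at this
      have := Int.eq_zero_of_abs_lt_dvd hd (by rw [abs_lt]; constructor <;> omega)
      omega
    split_ifs with hc
    · exact_mod_cast hcard
    · have hemp : (((range n).filter (fun j => Nat.Coprime j n)).filter
        (fun j => (z : ZMod m) = ((q * j : ℕ) : ZMod m))) = ∅ := by
        rw [eq_empty_iff_forall_notMem]
        intro j hjm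
        obtain ⟨_, h2, h3⟩ := hj j hjm
        apply hc
        have h4 : IsCoprime (j : ℤ) (n : ℤ) := Nat.isCoprime_iff_coprime.mpr h2
        obtain ⟨t, ht⟩ := h3
        have h5 : w = j + n * t := by linear_combination ht
        have h6 : IsCoprime w (n : ℤ) := by
          rw [h5]
          exact IsCoprime.add_mul_left_left h4 t
        have h7 := Int.isCoprime_iff_gcd_eq_one.mp h6
        rw [Int.gcd_eq_natAbs] at h7
        simpa using h7
      rw [hemp]
      simp
  · have hemp : (((range n).filter (fun j => Nat.Coprime j n)).filter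
        (fun j => (z : ZMod m) = ((q * j : ℕ) : ZMod m))) = ∅ := by
      rw [eq_empty_iff_forall_notMem]
      intro j hjm
      rw [mem_filter] at hjm
      obtain ⟨w, hw, _⟩ := hkey j hjm.2
      exact hz ⟨w, hw⟩
    rw [hemp]
    have hR : (∑ e ∈ n.divisors,
        (if (((q * e : ℕ)) : ℤ) ∣ z then (ArithmeticFunction.moebius e : ℤ) else 0)) = 0 := by
      apply sum_eq_zero
      intro e _
      rw [if_neg]
      intro hd
      apply hz
      refine dvd_trans ?_ hd
      push_cast
      exact dvd_mul_right _ _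
    rw [hR]
    simp

theorem hMOB (hCNT : StCNT) : StMOB := by
  intro m n q h hn hq hm
  set P := range h ×ˢ range h with hP
  -- interchange of the sums
  have h1 : (∑ j ∈ (range n).filter (fun j => Nat.Coprime j n), (TT m h ((q * j : ℕ) : ZMod m) : ℤ)) =
      ∑ p ∈ P, ((((range n).filter (fun j => Nat.Coprime j n)).filter
        (fun j => (((p.1 : ℤ) - (p.2 : ℤ) : ℤ) : ZMod m) = ((q * j : ℕ) : ZMod m))).card : ℤ) := by
    have hL : ∀ j, (TT m h ((q * j : ℕ) : ZMod m) : ℤ) =
        ∑ p ∈ P, if (((p.1 : ℤ) - (p.2 : ℤ) : ℤ) : ZMod m) = ((q * j : ℕ) : ZMod m) then 1 else 0 := by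
      intro j
      rw [TT, card_filter]
      push_cast
      rfl
    rw [sum_congr rfl (fun j _ => hL j), sum_comm]
    apply sum_congr rfl
    intro p _
    rw [card_filter]
    push_cast
    rfl
  have h2 : (∑ j ∈ (range n).filter (fun j => Nat.Coprime j n), (TT m h ((q * j : ℕ) : ZMod m) : ℤ)) ≤
      ∑ e ∈ n.divisors, (ArithmeticFunction.moebius e : ℤ) *
        ((P.filter fun p => ((q * e : ℕ) : ℤ) ∣ (p.1 : ℤ) - (p.2 : ℤ)).card : ℤ) := by
    rw [h1]
    refine le_trans (sum_le_sum fun p _ => point m n q hn hq hm _) ?_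
    rw [sum_comm]
    apply le_of_eq
    apply sum_congr rfl
    intro e _
    rw [card_filter]
    push_cast
    rw [mul_sum]
    apply sum_congr rfl
    intro p _
    by_cases hd : ((q : ℤ) * (e : ℤ)) ∣ (p.1 : ℤ) - (p.2 : ℤ)
    · simp [hd]
    · simp [hd]
  have h3 : (∑ j ∈ (range n).filter (fun j => Nat.Coprime j n), (TT m h ((q * j : ℕ) : ZMod m) : ℝ)) ≤
      ∑ e ∈ n.divisors, (ArithmeticFunction.moebius e : ℝ) *
        ((P.filter fun p => ((q * e : ℕ) : ℤ) ∣ (p.1 : ℤ) - (p.2 : ℤ)).card : ℝ) := by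
    exact_mod_cast h2
  refine le_trans h3 ?_
  have h4 : ∀ e ∈ n.divisors, (ArithmeticFunction.moebius e : ℝ) *
        ((P.filter fun p => ((q * e : ℕ) : ℤ) ∣ (p.1 : ℤ) - (p.2 : ℤ)).card : ℝ) ≤
        (h : ℝ) ^ 2 / q * ((ArithmeticFunction.moebius e : ℝ) / e) + h := by
    intro e he
    have he1 := Nat.pos_of_mem_divisors he
    have hqe : 1 ≤ q * e := Nat.mul_pos (by omega) he1
    obtain ⟨ha, hb⟩ := hCNT (q * e) h hqe
    rw [← hP] at ha hb
    have hq0 : (q : ℝ) ≠ 0 := by positivity
    have he0 : (e : ℝ) ≠ 0 := by positivity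
    have hh : (0 : ℝ) ≤ h := by positivity
    have hfr : (h : ℝ) ^ 2 / ((q * e : ℕ) : ℝ) = (h : ℝ) ^ 2 / q * (1 / e) := by
      push_cast
      field_simp
    rw [hfr] at ha hb
    set c := ((P.filter fun p => ((q * e : ℕ) : ℤ) ∣ (p.1 : ℤ) - (p.2 : ℤ)).card : ℝ) with hc
    rcases ArithmeticFunction.moebius_eq_or e with h0 | h0 | h0
    · rw [h0]
      simp
    · rw [h0]
      push_cast
      linarith
    · rw [h0]
      push_cast
      have : (h : ℝ) ^ 2 / q * (-1 / e) = -((h : ℝ) ^ 2 / q * (1 / e)) := by ring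
      rw [this]
      linarith
  refine le_trans (sum_le_sum h4) ?_
  rw [sum_add_distrib, ← mul_sum, sum_moebius_div n hn, sum_const, nsmul_eq_mul]
  have hmr : (m : ℝ) = n * q := by exact_mod_cast hm.symm
  have hn0 : (n : ℝ) ≠ 0 := by positivity
  have hq0 : (q : ℝ) ≠ 0 := by positivity
  have he : (h : ℝ) ^ 2 / q * ((Nat.totient n : ℝ) / n) = (Nat.totient n : ℝ) * ((h : ℝ) ^ 2 / m) := by
    rw [hmr]
    field_simp
  rw [he]
  linarith [mul_comm (n.divisors.card : ℝ) (h : ℝ)]

end Pool.Agent.Helper2.AE
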