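import Pool.Agent.Helper4.AE.St

/-!
# AE MODULE PR: pairs with a difference of small order
-/

set_option autoImplicit false

namespace Pool.Agent.Helper2.AE

open Pool.Agent.Helper4.AE
open Finset

theorem card_ann_le (m : ℕ) [NeZero m] (n : ℕ) (hn : 1 ≤ n) (b : ZMod m) :
    ((univ : Finset (ZMod m)).filter fun s => n • (s - b) = 0).card ≤ n := by
  have h := IsAddCyclic.card_nsmul_eq_zero_le (α := ZMod m) (n := n) (by omega)
  refine le_trans ?_ h
  apply Finset.card_le_card_of_injOn (fun s => s - b)
  · intro s hs
    have hs' := (mem_filter.mp (mem_coe.mp hs)).2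
    simp only [coe_filter, mem_univ, true_and, Set.mem_ofPred_eq]
    exact hs'
  · intro s _ t _ he
    have he' : s - b = t - b := he
    exact sub_left_injective he'

theorem hPR : StPR := by
  intro m _ r n A hB hn _
  have hC : ∀ a ∈ A, ((A.filter fun a' => n • (a - a') = 0).card : ℝ) ≤ Real.sqrt (r * n) := by
    intro a _
    set C := A.filter fun a' => n • (a - a') = 0 with hCd
    have hsq : C.card * C.card ≤ n * r := by
      have h1 : (C ×ˢ C).card ≤ n * r := by
        have hmap : ∀ p ∈ C ×ˢ C, p.1 + p.2 ∈
            (univ : Finset (ZMod m)).filter fun s => n • (s - (a + a)) = 0 := by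
          intro p hp
          rw [mem_product] at hp
          obtain ⟨h1, h2⟩ := hp
          rw [hCd, mem_filter] at h1 h2
          rw [mem_filter]
          refine ⟨mem_univ _, ?_⟩
          have he : p.1 + p.2 - (a + a) = -(a - p.1) + -(a - p.2) := by ring
          rw [he, smul_add, smul_neg, smul_neg, h1.2, h2.2]
          simp
        have h2 := Finset.card_le_mul_card_image_of_maps_to hmap r (by
          intro s _
          refine le_trans ?_ (hB s).2
          rw [sg]
          apply card_le_card
          intro p hp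
          rw [mem_filter, mem_product] at hp
          rw [mem_filter, mem_product]
          obtain ⟨⟨h1, h2⟩, h3⟩ := hp
          rw [hCd, mem_filter] at h1 h2
          exact ⟨⟨h1.1, h2.1⟩, h3⟩)
        have h3 := card_ann_le m n hn (a + a)
        calc (C ×ˢ C).card ≤ r * _ := h2
          _ ≤ r * n := Nat.mul_le_mul_left _ h3
          _ = n * r := Nat.mul_comm _ _
      rw [card_product] at h1
      exact h1
    apply Real.le_sqrt_of_sq_le
    have : ((C.card * C.card : ℕ) : ℝ) ≤ ((n * r : ℕ) : ℝ) := by exact_mod_cast hsq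
    push_cast at this
    nlinarith [this]
  have hsum : ((A ×ˢ A).filter fun p => addOrderOf (p.1 - p.2) = n).card ≤
      ∑ a ∈ A, (A.filter fun a' => n • (a - a') = 0).card := by
    have h1 : ((A ×ˢ A).filter fun p => addOrderOf (p.1 - p.2) = n) ⊆
        (A ×ˢ A).filter fun p => n • (p.1 - p.2) = 0 := by
      intro p hp
      rw [mem_filter] at hp ⊢
      refine ⟨hp.1, ?_⟩
      rw [← hp.2]
      exact addOrderOf_nsmul_eq_zero _
    refine le_trans (card_le_card h1) ?_
    rw [card_filter, sum_product]
    apply sum_le_sum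
    intro a _
    rw [card_filter]
  calc (((A ×ˢ A).filter fun p => addOrderOf (p.1 - p.2) = n).card : ℝ)
      ≤ ((∑ a ∈ A, (A.filter fun a' => n • (a - a') = 0).card : ℕ) : ℝ) := by exact_mod_cast hsum
    _ = ∑ a ∈ A, ((A.filter fun a' => n • (a - a') = 0).card : ℝ) := by push_cast; rfl
    _ ≤ ∑ a ∈ A, Real.sqrt (r * n) := sum_le_sum hC
    _ = A.card * Real.sqrt (r * n) := by rw [sum_const, nsmul_eq_mul]

end Pool.Agent.Helper2.AE
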